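import Pool.Agent.Work.MP_a793bb_nt.EM.UpF

set_option autoImplicit false

namespace Pool.Agent.Results.MP_a793bb_nt.ExceptionalExponent

open Pool.Agent.Work.MP_a793bb_nt

/-- Bounds for the number of points `P = (a : b : c)` over `K` with `a + b + c = 0`, `abc ≠ 0`,
`h(P) ≤ B` and `rad(P) ≤ lam * h(P)`. The exponent is `11 / 20` for `lam = 1` (all the points which
violate the abc inequality with `C = 0`), it is smaller than `1` for every `lam < 2`, and for
`2 ≤ lam ≤ 3` the two exponents agree. -/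
theorem result (K : Type*) [Field K] [NumberField K] (lam : ℝ) (h0 : 0 ≤ lam) (h3 : lam ≤ 3)
    (δ : ℝ) (hδ : 0 < δ) :
    (∃ C : ℝ, ∀ B : ℝ, 0 ≤ B → (excPts K lam B).Finite ∧
      ((excPts K lam B).ncard : ℝ) ≤
        C * Real.exp ((AbcEM.excExp lam + δ) * (Module.finrank ℚ K : ℝ) * B)) ∧
    (1 < lam → ∃ c B₀ : ℝ, 0 < c ∧ ∀ B : ℝ, B₀ ≤ B →
      c * Real.exp ((lam - 1 - δ) * (Module.finrank ℚ K : ℝ) * B) ≤
        ((excPts K lam B).ncard : ℝ)) := by
  refine ⟨?_, fun h1 => BPlus.lower_excPts K h1 h3 hδ⟩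
  obtain ⟨C, hC⟩ := AbcEM.upper_new K h0 hδ
  exact ⟨C, fun B hB => ⟨BPlus.finite_excPts lam B, hC B hB⟩⟩

end Pool.Agent.Results.MP_a793bb_nt.ExceptionalExponent
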