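import Pool.Agent.Work.MP_a793bb_nt.H6ExtremalMain

set_option autoImplicit false

/-!
The abc conjecture over a number field `K` is equivalent to its restriction to the values of any
single polynomial identity `A + B + C = 0` over `K` that attains equality in the Mason-Stothers
inequality and for which `A * B * C` has a factor `(X - α) ^ 2 - m * β ^ 2` with `m` an odd
integer (for `m = 1`: has two roots in `K`).
-/

namespace Pool.Agent.Results.MP_a793bb_nt.ExtremalIdentities

open Polynomial Pool.Agent.Work.MP_a793bb_nt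

theorem result (K : Type*) [Field K] [NumberField K] (A B C : K[X]) (n : ℕ)
    (hn : 1 ≤ n) (hsum : A + B + C = 0) (hcop : IsCoprime A B)
    (hdeg : max (max A.natDegree B.natDegree) C.natDegree = n)
    (hroots : ((A * B * C).rootSet (AlgebraicClosure K)).ncard ≤ n + 1)
    (m : ℤ) (hm : Odd m) (α β : K) (hβ : β ≠ 0)
    (hq : (X - Polynomial.C α) ^ 2 - Polynomial.C ((m : K) * β ^ 2) ∣ A * B * C) :
    ABC K ↔
      ∀ ε : ℝ, 0 < ε → ∃ C₀ : ℝ, ∀ t : K, (A * B * C).eval t ≠ 0 →
        ht (A.eval t) (B.eval t) (C.eval t) <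
          (1 + ε) * rad (A.eval t) (B.eval t) (C.eval t) + C₀ := by
  constructor
  · intro H ε hε
    obtain ⟨C₀, hC₀⟩ := H ε hε
    refine ⟨C₀, fun t ht => hC₀ _ _ _ ?_ ?_⟩
    · rw [← eval_add, ← eval_add, hsum, eval_zero]
    · rwa [← eval_mul, ← eval_mul]
  · intro H
    rw [ABC_iff_AffABC]
    refine H6.aff_main A B C hsum hcop n hn hdeg hroots m hm α β hβ hq ?_
    have hd : (0 : ℝ) < Module.finrank ℚ K := finrank_pos'
    intro ε hε
    obtain ⟨C₀, hC₀⟩ := H ε hε
    refine ⟨Module.finrank ℚ K * C₀, fun x hxS hx0 hx1 => ?_⟩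
    obtain ⟨t, _, hCt, hxt⟩ := hxS
    have hev : A.eval t + B.eval t + C.eval t = 0 := by
      have := congrArg (Polynomial.eval t) hsum
      simpa using this
    have hAt : A.eval t ≠ 0 := by
      intro h0; apply hx0; rw [hxt, h0]; simp
    have hBt : B.eval t ≠ 0 := by
      intro h0; apply hx1
      rw [hxt, div_eq_one_iff_eq hCt]
      linear_combination -hev + h0
    have hne : (A * B * C).eval t ≠ 0 := by
      rw [eval_mul, eval_mul]
      exact mul_ne_zero (mul_ne_zero hAt hBt) hCt
    have h := hC₀ t hne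
    have e1 : A.eval t = -C.eval t * x := by
      rw [hxt]; field_simp
    have e2 : B.eval t = -C.eval t * (1 - x) := by
      linear_combination hev - e1
    have e3 : C.eval t = -C.eval t * (-1) := by ring
    have hC' : -C.eval t ≠ 0 := neg_ne_zero.mpr hCt
    have h4 : ht (A.eval t) (B.eval t) (C.eval t) = ht x (1 - x) (-1) := by
      rw [← ht_smul (-C.eval t) x (1 - x) (-1) hC', ← e1, ← e2, ← e3]
    have h5 : rad (A.eval t) (B.eval t) (C.eval t) = Rs (Ip x) / (Module.finrank ℚ K : ℝ) := by
      rw [rad_affine hCt hev, ← hxt]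
    rw [h4, h5, ht, div_lt_iff₀ hd] at h
    have h2 := logHeight₁_le_triple x
    have h3 : ((1 + ε) * (Rs (Ip x) / (Module.finrank ℚ K : ℝ)) + C₀) *
        (Module.finrank ℚ K : ℝ) = (1 + ε) * Rs (Ip x) + Module.finrank ℚ K * C₀ := by
      field_simp
    rw [h3] at h
    linarith

end Pool.Agent.Results.MP_a793bb_nt.ExtremalIdentities
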