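import Pool.Agent.Work.MP_a793bb_nt.OrdA.FinalA
import Pool.Agent.Work.MP_a793bb_nt.Asy.FPts

set_option autoImplicit false

namespace Pool.Agent.Results.MP_a793bb_nt.RadicalOrder

open Pool.Agent.Work.MP_a793bb_nt Filter Topology

/-- Let `K` be a number field and for `R > 0` let `N(R)` be the number of points `P = (a : b : c)`
over `K` with `a + b + c = 0`, `abc ≠ 0` and product `N(P)` of the norms of the primes in `I_K(P)`
at most `R`. Then `N(R)` is asymptotic to `kappa K * R ^ (2 / 3)`. For every `δ > 0` all but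
`C R ^ (2 / 3 - η)` of them satisfy `h(P) ≤ (1 / 3 + δ) rad(P)`, and for every `ε > 0` and all
`R, T ≥ 1` all but `C (T ^ (- 1 / 3 + ε) + R ^ (- η)) R ^ (2 / 3)` of them satisfy
`H(P) ^ 3 < T N(P)`. -/
theorem result (K : Type*) [Field K] [NumberField K] :
    ((∀ R : ℝ, (abcPts K R).Finite) ∧ 0 < kappa K ∧
      Tendsto (fun R : ℝ => ((abcPts K R).ncard : ℝ) / R ^ (2 / 3 : ℝ)) atTop (𝓝 (kappa K))) ∧
    (∀ δ : ℝ, 0 < δ → ∃ η C : ℝ, 0 < η ∧ ∀ R : ℝ, 1 ≤ R →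
      ((abcFail K (1 / 3 + δ) R).ncard : ℝ) ≤ C * R ^ (2 / 3 - η)) ∧
    ∀ ε : ℝ, 0 < ε → ∃ η C : ℝ, 0 < η ∧ ∀ R T : ℝ, 1 ≤ R → 1 ≤ T →
      ((devPts K T R).ncard : ℝ) ≤ C * (T ^ (-(1 / 3) + ε) + R ^ (-η)) * R ^ (2 / 3 : ℝ) := by
  obtain ⟨C, -, hup⟩ := abcPts_upper K
  exact ⟨⟨fun R => (hup (max R 1) (le_max_right _ _)).1.subset
    (abcPts_mono K (le_max_left _ _)), asymptotic K⟩, (radical_order K).2⟩

end Pool.Agent.Results.MP_a793bb_nt.RadicalOrder
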